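import Pool.Agent.H12.CF.Fin

/-!
# [H88 CL CF] MP_b39724_nt, LowerBound v5: theorem K2 for a set `C` of elements of least index (cube-free case)

* `st_lstc`: the setting `St` for `C`.
* `base0_cfc`: `BASE0` for `C`: `closure C` solvable, no cube of a prime divisor of its order divides `#G`.
-/

set_option autoImplicit false

open scoped NumberField commutatorElement
open IsDedekindDomain H38.ML
open scoped Classical

noncomputable section

namespace H88.CL

open H12.CF H63.MA H38.BB H38.BG H77.PC3 H88.LH H35.SN H77.GN H77.AB H71.KA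

theorem st_lstc {n : ℕ} (hn : 2 ≤ n) (G : Subgroup (Equiv.Perm (Fin n)))
    (hG : MulAction.IsPretransitive G (Fin n)) (C : Set G) (hCL : C ⊆ H88.LB.Lst G)
    (hcc : ∀ x ∈ C, ∀ g : G, g * x * g⁻¹ ∈ C)
    (hs : Group.IsSolvable (Subgroup.closure C))
    (hc : ∀ q : ℕ, q.Prime → q ∣ Nat.card (Subgroup.closure C) → ¬ q ^ 3 ∣ Nat.card G) :
    St (Fin n) C (Subgroup.closure C) := by
  obtain ⟨-, -, hle, -, -⟩ := H38.BG.pidx_pos hn G hG
  have hpr : ∀ x ∈ C, (orderOf x).Prime := fun x hx =>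
    H38.ML.prime_of_least G x (hCL hx).1 (hCL hx).2
  refine ⟨hpr, hcc, ?_, rfl, hs, hc⟩
  rintro x hx y hy
  rw [ix_ind G x (hpr x hx), ix_ind G y hy]
  have hy1 : y ≠ 1 := by
    rintro rfl
    rw [orderOf_one] at hy
    exact Nat.not_prime_one hy
  have h1 : Spec.indG G ≤ Spec.ind (y : Equiv.Perm (Fin n)) := hle y hy1
  have h2 : Spec.ind (x : Equiv.Perm (Fin n)) = Spec.indG G := (hCL hx).2
  rw [h2]
  exact_mod_cast h1

theorem base0_cfc (hst : STP) (hk : K2C) {n : ℕ} (hn : 2 ≤ n) (G : Subgroup (Equiv.Perm (Fin n)))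
    (hG : MulAction.IsPretransitive G (Fin n)) (C : Set G) (hCL : C ⊆ H88.LB.Lst G)
    (hcc : ∀ x ∈ C, ∀ g : G, g * x * g⁻¹ ∈ C)
    (hs : Group.IsSolvable (Subgroup.closure C))
    (hc : ∀ q : ℕ, q.Prime → q ∣ Nat.card (Subgroup.closure C) → ¬ q ^ 3 ∣ Nat.card G)
    (r : ℕ) (hr : 1 ≤ r) (g : Fin r → G) (uni : ∀ i j, IsConj (g i) (g j) → i = j)
    (hI : ∀ x, x ∈ C ↔ ∃ i, IsConj x (g i)) : BASE0 C r := by
  have S := st_lstc hn G hG C hCL hcc hs hc
  have : Nonempty (Fin n) := ⟨⟨0, by omega⟩⟩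
  have hf : FaithfulSMul G (Fin n) := inferInstance
  obtain ⟨N, U, H⟩ := exists_nu S
  have hU : U.Normal := H.nU
  exact chain0 S.cj U (tow S H) (base_base0 (bar hst hk S H r hr g uni hI))

end H88.CL
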