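import Pool.Agent.H51.HD.Gtz
import Pool.Agent.H51.K2.Spec

/-!
# [H88 CL HYP] MP_b39724_nt, LowerBound v5: a hypercentral set `C` of elements of least index is in the class `MC`

* `trgzc`: two elements of least index in a term of the upper central series have the same order (as `H51.HD.trgz`).
* `tzc_pgroup`: `closure C` is a `p`-group.
* `hyp_scc`: `SC p (closure C) C` for a prime `p` if `closure C` lies in a term of the upper central series.
* `hyp_mcc`: `(G, C)` is in the class `MC` if `closure C` lies in a term of the upper central series.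
-/

set_option autoImplicit false

open scoped Classical

noncomputable section

namespace H88.CL

open H38.ML H77.UX H51.PF H86.HT H51.HD

variable {n : ℕ}

/-- hypercentral elements of least index have the same order -/
theorem trgzc (hn : 2 ≤ n) (G : Subgroup (Equiv.Perm (Fin n)))
    (hG : MulAction.IsPretransitive G (Fin n)) (k : ℕ) (g g' : G) (hg0 : g ∈ Li G)
    (hg0' : g' ∈ Li G) (hgk : g ∈ Subgroup.upperCentralSeries G k)
    (hgk' : g' ∈ Subgroup.upperCentralSeries G k) : orderOf g = orderOf g' := by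
  by_contra hne
  obtain ⟨hg, h⟩ := hg0
  obtain ⟨hg', h'⟩ := hg0'
  have hcm : ∀ (q : ℕ) (_ : q.Prime) (z : G), z ∈ Subgroup.upperCentralSeries G k → ¬ q ∣ orderOf z →
      ∀ s : G, (∃ j : ℕ, s ^ q ^ j = 1) → s * z = z * s := fun q hq z hz hqz s hs =>
    hyp_cmm (Subgroup.upperCentralSeries G k) k le_rfl hq s z hs hz hqz
  have hl := prime_of_least G g hg h
  have hl' := prime_of_least G g' hg' h'
  have ho : orderOf (g : Equiv.Perm (Fin n)) = orderOf g := Subgroup.orderOf_coe g
  have ho' : orderOf (g' : Equiv.Perm (Fin n)) = orderOf g' := Subgroup.orderOf_coe g'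
  have i1 := ind_prime (g : Equiv.Perm (Fin n)) (by rw [ho]; exact hl)
  have i2 := ind_prime (g' : Equiv.Perm (Fin n)) (by rw [ho']; exact hl')
  rw [ho] at i1
  rw [ho'] at i2
  have hn0 : n ≠ 0 := by omega
  change ind (g : Equiv.Perm (Fin n)) = indG G at h
  change ind (g' : Equiv.Perm (Fin n)) = indG G at h'
  set l := orderOf g with hldef
  set l' := orderOf g' with hldef'
  set I := indG G with hI
  rw [h] at i1
  rw [h'] at i2
  set m := n - Fx (g : Equiv.Perm (Fin n)) with hm
  set v := n.factorization l with hv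
  have hnl : l ^ v ∣ n := Nat.ordProj_dvd n l
  have hI0 : 0 < I := by
    rw [← h]
    exact ind_pos _ (fun h => hg (Subtype.ext h))
  have hll' : ¬ l ∣ l' := fun hd => hne ((Nat.prime_dvd_prime_iff_eq hl hl').1 hd)
  have d1 : l ^ v ∣ Fx (g' : Equiv.Perm (Fin n)) :=
    dvd_Fy hn0 hG hl g' (hcm l hl g' hgk' hll')
  have d2 : l ^ v ∣ l' * I := by
    rw [i2]
    exact Dvd.dvd.mul_left (Nat.dvd_sub hnl d1) _
  have d3 : l ^ v ∣ I :=
    (Nat.Coprime.pow_left v ((Nat.Prime.coprime_iff_not_dvd hl).2 hll')).dvd_of_dvd_mul_left d2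
  have hl1 : 1 < l := hl.one_lt
  have d4 : l ^ (v + 1) ∣ m := by
    have h1 : l ^ (v + 1) ∣ (l - 1) * m := by
      rw [← i1, pow_succ, mul_comm]
      exact Nat.mul_dvd_mul_left l d3
    have h2 : ¬ l ∣ l - 1 := fun hd => by
      have := Nat.le_of_dvd (by omega) hd
      omega
    exact (Nat.Coprime.pow_left (v + 1) ((Nat.Prime.coprime_iff_not_dvd hl).2 h2)).dvd_of_dvd_mul_left h1
  have hm0 : m ≠ 0 := by
    intro h0
    rw [h0, mul_zero] at i1
    rcases Nat.mul_eq_zero.1 i1 with h1 | h1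
    · omega
    · omega
  have hln : l * n ∣ m := by
    rw [← Nat.factorization_le_iff_dvd (by positivity) hm0]
    intro q
    by_cases hq : q.Prime
    · rw [Nat.factorization_mul (by omega) hn0, Finsupp.add_apply]
      by_cases hql : q = l
      · rw [hql, hl.factorization_self, ← hv]
        have := (hl.pow_dvd_iff_le_factorization hm0).1 d4
        omega
      · have h1 : l.factorization q = 0 := by
          rw [Nat.Prime.factorization hl, Finsupp.single_apply, if_neg (Ne.symm hql)]
        rw [h1, zero_add]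
        have h2 : q ^ n.factorization q ∣ m := by
          rw [hm]
          refine Nat.dvd_sub (Nat.ordProj_dvd n q) (dvd_Fy hn0 hG hq g (hcm q hq g hgk ?_))
          rw [← hldef]
          exact fun hd => hql ((Nat.prime_dvd_prime_iff_eq hq hl).1 hd)
        exact (hq.pow_dvd_iff_le_factorization hm0).1 h2
    · rw [Nat.factorization_eq_zero_of_not_prime _ hq]
      exact Nat.zero_le _
  have h1 := Nat.le_of_dvd (Nat.pos_of_ne_zero hm0) hln
  have h2 : m ≤ n := Nat.sub_le _ _
  nlinarith

/-- `closure C` is a `p`-group -/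
theorem tzc_pgroup {G : Type} [Group G] [Finite G] (C : Set G) (k : ℕ)
    (hk : Subgroup.closure C ≤ Subgroup.upperCentralSeries G k) {p : ℕ} (hp : p.Prime)
    (hL : ∀ h ∈ C, h ^ p = 1) : IsPGroup p (Subgroup.closure C) := by
  have : Fact p.Prime := ⟨hp⟩
  have hnil := hyp_tnil (Subgroup.closure C) k hk
  obtain ⟨S⟩ : Nonempty (Sylow p (Subgroup.closure C)) := inferInstance
  have h1 : Subgroup.closure C ≤ (S : Subgroup (Subgroup.closure C)).map (Subgroup.closure C).subtype := by
    refine (Subgroup.closure_le _).2 ?_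
    intro h hh
    have hm : h ∈ Subgroup.closure C := Subgroup.subset_closure hh
    refine ⟨⟨h, hm⟩, nil_mem hnil hp S ⟨1, ?_⟩, rfl⟩
    rw [pow_one]
    exact Subtype.ext (hL h hh)
  intro x
  obtain ⟨y, hy, hyx⟩ := h1 x.2
  have h2 : y = x := Subtype.ext hyx
  rw [← h2]
  obtain ⟨j, hj⟩ := S.isPGroup' ⟨y, hy⟩
  exact ⟨j, congrArg Subtype.val hj⟩

/-- a hypercentral `C` -/
theorem hyp_scc (hn : 2 ≤ n) (G : Subgroup (Equiv.Perm (Fin n)))
    (hG : MulAction.IsPretransitive G (Fin n)) (C : Set G) (hCL : C ⊆ H88.LB.Lst G)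
    (hne : C.Nonempty) (k : ℕ) (hk : Subgroup.closure C ≤ Subgroup.upperCentralSeries G k) :
    ∃ p : ℕ, p.Prime ∧ (∀ h ∈ C, h ^ p = 1) ∧ H88.LB.SC p (Subgroup.closure C) C := by
  obtain ⟨g₀, hg₀⟩ := hne
  have hkC : ∀ x ∈ C, x ∈ Subgroup.upperCentralSeries G k := fun x hx => hk (Subgroup.subset_closure hx)
  obtain ⟨p, hpd⟩ : ∃ p, p = orderOf g₀ := ⟨_, rfl⟩
  have hp : p.Prime := by
    rw [hpd]
    exact H38.ML.prime_of_least G g₀ (hCL hg₀).1 (hCL hg₀).2
  have hL : ∀ h ∈ C, h ^ p = 1 := fun h hh => by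
    rw [hpd, trgzc hn G hG k g₀ h (hCL hg₀) (hCL hh) (hkC _ hg₀) (hkC _ hh)]
    exact pow_orderOf_eq_one h
  exact ⟨p, hp, hL, H88.LB.SC.base _ _ k hk (tzc_pgroup C k hk hp hL)⟩

/-- a hypercentral `C` is in the class `MC` -/
theorem hyp_mcc (hn : 2 ≤ n) (G : Subgroup (Equiv.Perm (Fin n)))
    (hG : MulAction.IsPretransitive G (Fin n)) (C : Set G) (hCL : C ⊆ H88.LB.Lst G)
    (hne : C.Nonempty) (hcc : ∀ x ∈ C, ∀ g : G, g * x * g⁻¹ ∈ C) (k : ℕ)
    (hk : Subgroup.closure C ≤ Subgroup.upperCentralSeries G k) : H51.K2.MC C := by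
  obtain ⟨p, hp, hL, -⟩ := hyp_scc hn G hG C hCL hne k hk
  have hnor : (Subgroup.closure C).Normal := by
    refine ⟨fun x hx g => ?_⟩
    induction hx using Subgroup.closure_induction with
    | mem y hy => exact Subgroup.subset_closure (hcc y hy g)
    | one =>
      rw [mul_one, mul_inv_cancel]
      exact Subgroup.one_mem _
    | mul a b _ _ ha hb =>
      have h1 : g * (a * b) * g⁻¹ = (g * a * g⁻¹) * (g * b * g⁻¹) := by group
      rw [h1]
      exact Subgroup.mul_mem _ ha hb
    | inv a _ ha =>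
      have h1 : g * a⁻¹ * g⁻¹ = (g * a * g⁻¹)⁻¹ := by group
      rw [h1]
      exact Subgroup.inv_mem _ ha
  have hall : ∀ g : G, g ∈ (Subgroup.normalizer (Subgroup.closure C : Set G) : Subgroup G) := by
    intro g
    rw [Subgroup.normalizer_eq_top]
    exact Subgroup.mem_top g
  refine H51.K2.MC.loc C p hp hL (H88.LB.LC.loc C (Subgroup.closure C) ?_ ?_ ?_ ?_ ?_)
  · congr 1
    exact (Set.inter_eq_left.2 Subgroup.subset_closure).symm
  · intro x hx
    exact ⟨1, by simpa using Subgroup.subset_closure hx⟩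
  · intro g hg
    exact absurd (hall g) hg
  · intro x _ hx
    have h1 : {z : G | ∃ g : G, g ∉ (Subgroup.normalizer (Subgroup.closure C : Set G) : Subgroup G) ∧
        ∃ y ∈ Subgroup.closure C, z = g * y * g⁻¹} = ∅ := by
      ext z
      constructor
      · rintro ⟨g, hg, -⟩
        exact absurd (hall g) hg
      · intro h
        exact absurd h (Set.notMem_empty _)
    rw [h1, Subgroup.closure_empty, Subgroup.mem_bot] at hx
    exact hx
  · refine H88.LB.SC.base _ _ k ?_ ?_
    · intro x hx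
      exact ucs_sub _ k x (hk hx)
    · exact (tzc_pgroup C k hk hp hL).of_injective
        ((Subgroup.subgroupOfEquivOfLe (fun g _ => hall g)).toMonoidHom) (MulEquiv.injective _)

end H88.CL
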